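import Pool.Agent.UL3.Stmts
import Pool.Agent.Helper64_BM.Main

/-!
Squad UL3 (MP_c7c9bf_co), row CCV (helper19): the square root of the area of the sections is concave.
-/

set_option autoImplicit false

open MeasureTheory Set
open scoped Pointwise

namespace Pool.Agent.UL3.H19

lemma real_smul_set (a : ℝ) (S : Set (ℝ × ℝ)) :
    (volume : Measure (ℝ × ℝ)).real (a • S) = a ^ 2 * (volume : Measure (ℝ × ℝ)).real S := by
  have h2 : Module.finrank ℝ (ℝ × ℝ) = 2 := by simp
  rw [measureReal_def, Measure.addHaar_smul, h2, ENNReal.toReal_mul, measureReal_def,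
    ENNReal.toReal_ofReal (abs_nonneg _), abs_of_nonneg (sq_nonneg a)]

/-- the height is attained, and the sections below it are not empty -/
lemma exists_top {K : Set E3} (hK : SB K) : ∃ x ∈ K, x 2 = hgt K := by
  have hne : K.Nonempty := hK.int.mono interior_subset
  have hc : IsCompact ((fun x : E3 => x 2) '' K) := hK.cpt.image (by fun_prop)
  obtain ⟨x, hx, hx2⟩ := hc.sSup_mem (hne.image _)
  exact ⟨x, hx, hx2⟩

lemma sec_nonempty {K : Set E3} (hK : SB K) {t : ℝ} (ht : t ∈ Icc (-hgt K) (hgt K)) :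
    (sec K t).Nonempty := by
  obtain ⟨x, hx, hx2⟩ := exists_top hK
  have hx' := hK.sym x hx
  rcases eq_or_lt_of_le (ht.1.trans ht.2) with h0 | h0
  · -- the height is 0
    have hh : hgt K = 0 := by linarith
    have ht0 : t = 0 := by
      have h1 := ht.1; have h2 := ht.2
      rw [hh] at h1 h2
      linarith
    refine ⟨(x 0, x 1), ?_⟩
    rw [mem_sec, ht0, ← hh, ← hx2, up_self]
    exact hx
  · have hpos : 0 < hgt K := by linarith
    set c : ℝ := (1 + t / hgt K) / 2 with hc
    have h1 : -1 ≤ t / hgt K := by rw [le_div_iff₀ hpos]; linarith [ht.1]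
    have h2 : t / hgt K ≤ 1 := by rw [div_le_one hpos]; exact ht.2
    have hmem : c • x + (1 - c) • -x ∈ K :=
      hK.cvx hx hx' (by rw [hc]; linarith) (by rw [hc]; linarith) (by ring)
    refine ⟨((c • x + (1 - c) • -x) 0, (c • x + (1 - c) • -x) 1), ?_⟩
    rw [mem_sec]
    have h3 : (c • x + (1 - c) • -x) 2 = t := by
      have h4 : (c • x + (1 - c) • -x) 2 = c * x 2 + (1 - c) * -(x 2) := rfl
      rw [h4, hx2, hc]
      field_simp
      ring
    have h5 := up_self (c • x + (1 - c) • -x)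
    rw [h3] at h5
    rw [h5]
    exact hmem

theorem ccv (hsec : SecStmt) : CcvStmt := by
  intro K hK
  obtain ⟨-, hS, -, -, -⟩ := hsec K hK
  refine ⟨convex_Icc _ _, ?_⟩
  intro s hs t ht a b ha hb hab
  have hn : Module.finrank ℝ (ℝ × ℝ) = 2 := by simp
  have hst : a • s + b • t ∈ Icc (-hgt K) (hgt K) := convex_Icc _ _ hs ht ha hb hab
  have hsub : a • sec K s + b • sec K t ⊆ sec K (a • s + b • t) := by
    rintro _ ⟨_, ⟨p, hp, rfl⟩, _, ⟨q, hq, rfl⟩, rfl⟩
    rw [mem_sec] at hp hq ⊢
    have h1 := hK.cvx hp hq ha hb hab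
    rw [up_smul, up_smul, up_add] at h1
    exact h1
  have hbm := BM64.bm_pow (volume : Measure (ℝ × ℝ)) ((hS s).1.smul a) ((hS t).1.smul b)
    ((sec_nonempty hK hs).smul_set) ((sec_nonempty hK ht).smul_set)
    (a := a * Real.sqrt (al K s)) (b := b * Real.sqrt (al K t))
    (mul_nonneg ha (Real.sqrt_nonneg _)) (mul_nonneg hb (Real.sqrt_nonneg _))
    (by rw [hn, real_smul_set, mul_pow, Real.sq_sqrt (by exact measureReal_nonneg), al])
    (by rw [hn, real_smul_set, mul_pow, Real.sq_sqrt (by exact measureReal_nonneg), al])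
  rw [hn] at hbm
  have hmono : (volume : Measure (ℝ × ℝ)).real (a • sec K s + b • sec K t) ≤
      al K (a • s + b • t) :=
    measureReal_mono hsub (hS _).1.measure_lt_top.ne
  have h0 : 0 ≤ a * Real.sqrt (al K s) + b * Real.sqrt (al K t) :=
    add_nonneg (mul_nonneg ha (Real.sqrt_nonneg _)) (mul_nonneg hb (Real.sqrt_nonneg _))
  simp only [smul_eq_mul] at hmono hbm ⊢
  rw [← Real.sqrt_sq h0]
  exact Real.sqrt_le_sqrt (hbm.trans hmono)

end Pool.Agent.UL3.H19
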