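import Pool.Agent.UL3.Stmts

/-!
Squad UL3 (MP_c7c9bf_co), row GOD (helper19): every symmetric convex body is good.
-/

set_option autoImplicit false

open MeasureTheory Set

namespace Pool.Agent.UL3.H19

theorem god (hiso : IsoStmt) (hinv : InvStmt) (huni : UniStmt) (hinc : IncStmt) (hnrv : NrvStmt)
    (havg : AvgStmt) : GodStmt := by
  intro K hK
  by_contra hbad
  obtain ⟨T, hT⟩ := hiso K hK
  obtain ⟨hK', hgood⟩ := hinv K T hK
  have hbad' : ¬ Good (T '' K) := fun h => hbad (hgood h)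
  generalize T '' K = M at *
  have hu := huni M hK' hbad' hT
  obtain ⟨h1, h2⟩ := hinc M (197 / 100) (14 / 5) hK'.cpt hK'.cvx (by norm_num) (by norm_num)
  have hin : Metric.closedBall 0 (197 / 100) ⊆ M := h1 fun u hu1 => (hu u hu1).1
  have hout : M ⊆ Metric.closedBall 0 (14 / 5) := h2 fun u hu1 x hx => (hu u hu1).2.1 x hx
  have hnorm : (∫ x in M, ‖x‖ ^ 2) = 3 * V M := by
    have h3 : ∀ x : E3, ‖x‖ ^ 2 = ∑ i : Fin 3, x i * x i := by
      intro x
      rw [EuclideanSpace.norm_sq_eq]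
      refine Finset.sum_congr rfl fun i _ => ?_
      rw [Real.norm_eq_abs, sq_abs, sq]
    simp_rw [h3]
    rw [integral_finsetSum]
    · simp_rw [hT]
      simp
    · intro i _
      refine ContinuousOn.integrableOn_compact hK'.cpt ?_
      fun_prop
  obtain ⟨h3, h4⟩ := hnrv M hK'.cpt hK'.cvx hin hout hnorm
  exact havg M hK' (fun u hu1 => (hu u hu1).2.2) h3 h4

end Pool.Agent.UL3.H19
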